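import Pool.Agent.MP_3775ab_al.H73.InjB

open Pool.Agent.MP_3775ab_al.H73
open scoped TensorProduct

universe u

/-- Over a perfect field, `P ↦ F⁻¹(P)` is injective on all thick two-sided ideals of `stmod H`,
hence on the Balmer spectrum. -/
theorem Pool.Agent.Results.MP_3775ab_al.InjectivePerfect.result (k H D : Type u) [Field k]
    [PerfectField k] [Ring H] [HopfAlgebra k H] [FiniteDimensional k H] [Ring D] [Algebra k D]
    (e : Module.Dual k H ⊗[k] H ≃ₗ[k] D) (ι : H →ₐ[k] D) (hD : IsDouble e ι) :
    Set.InjOn (resPreimage ι) {P | IsThickIdeal P} :=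
  injOn_thick hD
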