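import Pool.Agent.MP_3775ab_al.H73.ExP

open Pool.Agent.MP_3775ab_al.H73
open scoped TensorProduct

/-- There are a field `k` and a finite-dimensional Hopf algebra `H` over `k`, with Drinfeld double
`D`, such that `f : Spc stmod H → Spc stmod D`, `f(P) = F⁻¹(P)`, is not injective. -/
theorem Pool.Agent.Results.MP_3775ab_al.NotInjective.result :
    ∃ (k : Type) (_ : Field k) (H : Type) (_ : Ring H) (_ : HopfAlgebra k H)
      (D : Type) (_ : Ring D) (_ : Algebra k D) (e : Module.Dual k H ⊗[k] H ≃ₗ[k] D)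
      (ι : H →ₐ[k] D), FiniteDimensional k H ∧ IsDouble e ι ∧
        ¬ Set.InjOn (resPreimage ι) {P | IsPrimeIdeal P} := by
  refine ⟨RatFunc (ZMod 2), inferInstance, Hs (RatFunc (ZMod 2)) RatFunc.X, inferInstance,
    inferInstance, _, _, _, _, _, inferInstance, isDouble_double, Hs.not_injOn fun a ha => ?_⟩
  have h0 : a ≠ 0 := by
    rintro rfl
    exact RatFunc.X_ne_zero (ha.symm.trans (by simp))
  have := congrArg RatFunc.intDegree ha
  rw [sq, RatFunc.intDegree_mul h0 h0, RatFunc.intDegree_X] at this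
  omega
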